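import Mathlib

/-!
# Free sets for set mappings on the successor of a singular cardinal: column-homogeneous colourings
-/

set_option autoImplicit false

namespace Pool.Agent.Helper53.SM

open Cardinal Ordinal Set

universe u v

/-- The relation `(κ, η, θ) → ι`. For every set mapping `f` on a set `S` of size `κ`, all values of
which have fewer than `κ` elements, such that the intersection of any `η` values has fewer than `θ`
elements, there is a free set of size `ι`. -/
def Arrow (κ η θ ι : Cardinal.{u}) : Prop :=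
  ∀ S : Type u, #S = κ → ∀ f : S → Set S, (∀ x, x ∉ f x) → (∀ x, #(f x) < κ) →
    (∀ X : Set S, #X = η → #(⋂ x ∈ X, f x : Set S) < θ) →
    ∃ H : Set S, #H = ι ∧ ∀ x ∈ H, ∀ y ∈ H, x ≠ y → y ∉ f x

/-- Every colouring `g` of `λ⁺ × λ` with `σ` colours depends only on the second coordinate on a
product of a set of size `λ⁺` and a set of size `λ`. -/
def ColumnHomogeneous (lam σ : Cardinal.{u}) : Prop :=
  ∀ S L C : Type u, #S = Order.succ lam → #L = lam → #C = σ → ∀ g : S → L → C,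
    ∃ (X : Set S) (Y : Set L) (h : L → C), #X = Order.succ lam ∧ #Y = lam ∧
      ∀ x ∈ X, ∀ y ∈ Y, g x y = h y

theorem exists_rec {I : Type u} {X : Type v} [LinearOrder I] [WellFoundedLT I]
    (G : (i : I) → ((j : I) → j < i → X) → X) :
    ∃ F : I → X, ∀ i, F i = G i (fun j _ => F j) :=
  ⟨(wellFounded_lt (α := I)).fix G, fun i => WellFounded.fix_eq _ G i⟩

/-- **Column homogeneity implies the existence of free sets.** -/
theorem arrow_of_columnHomogeneous {lam σ : Cardinal.{u}} (hl : ℵ₀ ≤ lam) (hσ : σ ≤ lam)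
    (hcol : ColumnHomogeneous lam σ) :
    Arrow (Order.succ lam) (Order.succ lam) lam (Order.succ σ) := by
  classical
  intro S hS f hf hsmall hint
  by_contra hcon
  have hl' : ℵ₀ ≤ Order.succ lam := hl.trans (Order.le_succ _)
  -- free sets are small
  let Fr : Set S → Prop := fun H => ∀ x ∈ H, ∀ y ∈ H, x ≠ y → y ∉ f x
  have hfree : ∀ H : Set S, Fr H → #H ≤ σ := by
    intro H hH
    by_contra h
    have h1 : Order.succ σ ≤ #H := Order.succ_le_of_lt (not_le.1 h)
    obtain ⟨T, hT, hTc⟩ := Cardinal.le_mk_iff_exists_subset.1 h1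
    exact hcon ⟨T, hTc, fun x hx y hy => hH x (hT hx) y (hT hy)⟩
  -- maximal free sets in the complement of `Z`
  have hz : ∀ Z : Set S, ∃ M, Maximal (fun H : Set S => Fr H ∧ Disjoint H Z) M := by
    intro Z
    apply zorn_subset {H : Set S | Fr H ∧ Disjoint H Z}
    intro c hc hch
    refine ⟨⋃₀ c, ⟨?_, ?_⟩, fun s hs => subset_sUnion_of_mem hs⟩
    · rintro x ⟨s, hs, hx⟩ y ⟨t, ht, hy⟩ hxy
      rcases hch.total hs ht with h | h
      · exact (hc ht).1 x (h hx) y hy hxy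
      · exact (hc hs).1 x hx y (h hy) hxy
    · rw [disjoint_sUnion_left]
      exact fun s hs => (hc hs).2
  choose M hM using hz
  let L : Type u := lam.ord.ToType
  have hL : #L = lam := by change #(lam.ord.ToType) = lam; simp
  obtain ⟨U, hU⟩ := exists_rec (I := L) (X := Set S) (fun ξ F => ⋃ η, ⋃ h : η < ξ, M (F η h))
  have hsub : ∀ η ξ, η < ξ → M (U η) ⊆ U ξ := by
    intro η ξ h v hv
    rw [hU ξ]
    exact mem_iUnion₂.2 ⟨η, h, hv⟩
  have hdisj : ∀ ξ η v, v ∈ M (U ξ) → v ∈ M (U η) → ξ = η := by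
    intro ξ η v h1 h2
    rcases lt_trichotomy ξ η with h | h | h
    · exact absurd (hsub _ _ h h1) (Set.disjoint_left.1 (hM (U η)).1.2 h2)
    · exact h
    · exact absurd (hsub _ _ h h2) (Set.disjoint_left.1 (hM (U ξ)).1.2 h1)
  let A : Set S := ⋃ ξ, M (U ξ)
  have hA : #A ≤ lam := by
    refine (mk_iUnion_le_sum_mk.trans (sum_le_mk_mul_iSup _)).trans ?_
    refine mul_le_of_le hl hL.le ?_
    exact ciSup_le' fun ξ => (hfree _ (hM (U ξ)).1.1).trans hσ
  have hUA : ∀ ξ, U ξ ⊆ A := by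
    intro ξ v hv
    rw [hU ξ] at hv
    obtain ⟨η, _, h⟩ := mem_iUnion₂.1 hv
    exact mem_iUnion.2 ⟨η, h⟩
  let B : Set S := ⋃ y : A, f y
  have hB : #B ≤ lam := by
    refine (mk_iUnion_le_sum_mk.trans (sum_le_mk_mul_iSup _)).trans ?_
    refine mul_le_of_le hl hA ?_
    exact ciSup_le' fun y => Order.lt_succ_iff.1 (hsmall y)
  let Y : Set S := (A ∪ B)ᶜ
  have hAB : #(A ∪ B : Set S) ≤ lam := (mk_union_le _ _).trans (add_le_of_le hl hA hB)
  have hY : #Y = Order.succ lam := by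
    rw [← hS]
    have : Infinite S := infinite_iff.2 (hS ▸ hl')
    exact mk_compl_of_infinite _ (hAB.trans_lt (hS ▸ Order.lt_succ lam))
  -- the colouring
  have hp : ∀ (x : Y) (ξ : L), ∃ y, y ∈ M (U ξ) ∧ y ∈ f x := by
    intro x ξ
    by_contra hc
    push Not at hc
    have hxA : (x : S) ∉ A := fun h => x.2 (Or.inl h)
    have hxB : (x : S) ∉ B := fun h => x.2 (Or.inr h)
    have hfr : Fr (insert (x : S) (M (U ξ))) := by
      rintro a (rfl | ha) b (rfl | hb) hab
      · exact absurd rfl hab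
      · exact hc b hb
      · exact fun h => hxB (mem_iUnion.2 ⟨⟨a, mem_iUnion.2 ⟨ξ, ha⟩⟩, h⟩)
      · exact (hM (U ξ)).1.1 a ha b hb hab
    have hd : Disjoint (insert (x : S) (M (U ξ))) (U ξ) := by
      rw [Set.disjoint_insert_left]
      exact ⟨fun h => hxA (hUA ξ h), (hM (U ξ)).1.2⟩
    have h1 := (hM (U ξ)).2 ⟨hfr, hd⟩ (subset_insert _ _) (mem_insert _ _)
    exact hxA (mem_iUnion.2 ⟨ξ, h1⟩)
  choose p hp1 hp2 using hp
  let C : Type u := σ.out
  have hC : #C = σ := mk_out σ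
  have hj : ∀ ξ : L, ∃ j : M (U ξ) → C, Function.Injective j := by
    intro ξ
    have : #(M (U ξ)) ≤ #C := by rw [hC]; exact hfree _ (hM (U ξ)).1.1
    obtain ⟨e⟩ := this
    exact ⟨e, e.injective⟩
  choose j hj using hj
  obtain ⟨X, Λ, h, hX, hΛ, hhom⟩ := hcol Y L C hY hL hC fun x ξ => j ξ ⟨p x ξ, hp1 x ξ⟩
  have hXne : X.Nonempty := by
    rw [← nonempty_coe_sort, ← mk_ne_zero_iff, hX]
    exact (aleph0_pos.trans_le hl').ne'
  obtain ⟨x₀, hx₀⟩ := hXne
  have hconst : ∀ x ∈ X, ∀ ξ ∈ Λ, p x ξ = p x₀ ξ := by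
    intro x hx ξ hξ
    have h1 := (hhom x hx ξ hξ).trans (hhom x₀ hx₀ ξ hξ).symm
    exact congrArg Subtype.val (hj ξ h1)
  have hX' : #(Subtype.val '' X : Set S) = Order.succ lam := by
    rw [mk_image_eq Subtype.val_injective, hX]
  have h1 := hint _ hX'
  have h2 : #Λ ≤ #(⋂ x ∈ (Subtype.val '' X : Set S), f x : Set S) := by
    refine mk_le_of_injective (f := fun ξ : Λ => ⟨p x₀ ξ, ?_⟩) ?_
    · simp only [mem_iInter]
      rintro _ ⟨x, hx, rfl⟩
      rw [← hconst x hx ξ ξ.2]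
      exact hp2 x ξ
    · intro ξ η hξη
      have h3 : p x₀ ξ = p x₀ η := congrArg Subtype.val hξη
      exact Subtype.ext (hdisj _ _ (p x₀ ξ) (hp1 x₀ ξ) (h3 ▸ hp1 x₀ η))
  rw [hΛ] at h2
  exact absurd h1 (not_lt.2 h2)

end Pool.Agent.Helper53.SM
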