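import Pool.Agent.Helper53.SM.Core

/-!
# Column homogeneity at singular limits of measurable cardinals
-/

set_option autoImplicit false

namespace Pool.Agent.Helper53.SM

open Cardinal Ordinal Set Filter

universe u v

/-- The ultrafilter `D` on `A` is closed under intersections of fewer than `#A` members. -/
def CardComplete {A : Type u} (D : Ultrafilter A) : Prop :=
  ∀ (J : Type u) (G : J → Set A), #J < #A → (∀ j, G j ∈ D) → (⋂ j, G j) ∈ D

/-- `D` is a nonprincipal ultrafilter on `A` which is closed under intersections of fewer than `#A`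
members: a measure on the cardinal `#A`. -/
structure IsMeasure {A : Type u} (D : Ultrafilter A) : Prop where
  complete : CardComplete D
  nonprincipal : ∀ a : A, {a} ∉ D

variable {A : Type u} {D : Ultrafilter A}

theorem IsMeasure.uniform (h : IsMeasure D) {B : Set A} (hB : B ∈ D) : #B = #A := by
  refine le_antisymm (mk_set_le B) (not_lt.1 fun hlt => ?_)
  have h1 : (⋂ b : B, ({(b : A)} : Set A)ᶜ) ∈ D :=
    h.complete B _ hlt fun b => Ultrafilter.compl_mem_iff_notMem.2 (h.nonprincipal b)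
  have h2 := D.nonempty_of_mem (D.inter_mem hB h1)
  obtain ⟨x, hx, hx'⟩ := h2
  exact mem_iInter.1 hx' ⟨x, hx⟩ rfl

theorem IsMeasure.infinite (h : IsMeasure D) : ℵ₀ ≤ #A := by
  rw [← infinite_iff]
  by_contra hc
  rw [not_infinite_iff_finite] at hc
  have : (⋃ a ∈ (Set.univ : Set A), ({a} : Set A)) ∈ D := by
    rw [biUnion_of_singleton]
    exact univ_mem
  rw [Ultrafilter.finite_biUnion_mem_iff Set.finite_univ] at this
  obtain ⟨a, _, ha⟩ := this
  exact h.nonprincipal a ha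

/-- a partition into few pieces has a member in `D` -/
theorem IsMeasure.pick (h : IsMeasure D) {C : Type u} (hC : #C < #A) (g : A → C) :
    ∃ c, {a | g a = c} ∈ D := by
  by_contra hc
  push Not at hc
  have h1 : (⋂ c : C, {a | g a = c}ᶜ) ∈ D :=
    h.complete C _ hC fun c => Ultrafilter.compl_mem_iff_notMem.2 (hc c)
  obtain ⟨x, hx⟩ := D.nonempty_of_mem h1
  exact mem_iInter.1 hx (g x) rfl

theorem IsMeasure.strongLimit (h : IsMeasure D) {ν : Cardinal.{u}} (hν : ν < #A) : 2 ^ ν < #A := by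
  by_contra hc
  rw [not_lt] at hc
  have h1 : #A ≤ #(ν.out → ULift.{u} Bool) := by simpa using hc
  obtain ⟨e⟩ := h1
  have h2 : ∀ n : ν.out, ∃ b : ULift.{u} Bool, {a | e a n = b} ∈ D := fun n =>
    h.pick (C := ULift.{u} Bool) (lt_of_lt_of_le (by simp) h.infinite)
      fun a => e a n
  choose b hb using h2
  have h3 := h.complete ν.out _ (by rw [mk_out]; exact hν) hb
  obtain ⟨x, hx⟩ := D.nonempty_of_mem h3
  have h4 : (⋂ n, {a | e a n = b n}) ⊆ ({x} : Set A) := by
    intro y hy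
    rw [mem_singleton_iff]
    apply e.injective
    funext n
    exact (mem_iInter.1 hy n).trans (mem_iInter.1 hx n).symm
  exact h.nonprincipal x (mem_of_superset h3 h4)

/-- **Column homogeneity at singular limits of measurable cardinals**. -/
theorem columnHomogeneous_of_measures {lam : Cardinal.{u}} {I : Type u} (𝓕 : Filter I) [𝓕.NeBot]
    (A : I → Type u) (D : ∀ i, Ultrafilter (A i)) (hI : #I < lam) (hA : ∀ i, #(A i) < lam)
    (hlim : ∀ ν < lam, ∀ᶠ i in 𝓕, ν < #(A i)) (hD : ∀ i, IsMeasure (D i))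
    (hdir : ∀ S : Type u, #S = Order.succ lam → ∀ F : S → ∀ i, Set (A i), (∀ x i, F x i ∈ D i) →
      ∃ B : ∀ i, Set (A i), (∀ i, B i ∈ D i) ∧ ∀ x, ∀ᶠ i in 𝓕, B i ⊆ F x i)
    {σ : Cardinal.{u}} (hσ : σ < lam) : ColumnHomogeneous lam σ := by
  classical
  intro S L C hS hL hC g
  obtain ⟨i₀, -⟩ := (hlim σ hσ).exists
  have hl : ℵ₀ ≤ lam := (hD i₀).infinite.trans (hA i₀).le
  have hl' : ℵ₀ ≤ Order.succ lam := hl.trans (Order.le_succ _)
  have hreg : (Order.succ lam).IsRegular := isRegular_succ hl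
  -- powers
  have hpow : ∀ ν < lam, 2 ^ ν < lam := by
    intro ν hν
    obtain ⟨i, hi⟩ := (hlim ν hν).exists
    exact ((hD i).strongLimit hi).trans (hA i)
  have hIC : #(I → C) < Order.succ lam := by
    rw [Order.lt_succ_iff, mk_pi, prod_const, Cardinal.lift_id, Cardinal.lift_id, hC]
    have h1 : σ ^ #I ≤ 2 ^ (σ * #I) := by
      rw [power_mul]
      exact power_le_power_right (cantor σ).le
    refine h1.trans (hpow _ ?_).le
    exact mul_lt_of_lt hl hσ hI
  have hSI : #(Set I) < Order.succ lam := by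
    rw [Order.lt_succ_iff, mk_set]
    exact (hpow _ hI).le
  -- the coordinates
  have hsum : #(Σ i, A i) = lam := by
    rw [mk_sigma]
    apply le_antisymm
    · refine (sum_le_mk_mul_iSup _).trans ?_
      exact mul_le_of_le hl hI.le (ciSup_le' fun i => (hA i).le)
    · refine le_of_forall_lt fun ν hν => ?_
      obtain ⟨i, hi⟩ := (hlim ν hν).exists
      exact hi.trans_le (le_sum _ i)
  obtain ⟨e⟩ : Nonempty ((Σ i, A i) ≃ L) := Cardinal.eq.1 (hsum.trans hL.symm)
  -- colours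
  have hS0 : Nonempty S := by
    rw [← mk_ne_zero_iff, hS]; exact (aleph0_pos.trans_le hl').ne'
  have hL0 : Nonempty L := by
    rw [← mk_ne_zero_iff, hL]; exact (aleph0_pos.trans_le hl).ne'
  have hC0 : Nonempty C := ⟨g hS0.some hL0.some⟩
  have hcol : ∀ (x : S) (i : I), ∃ c : C, σ < #(A i) → {a | g x (e ⟨i, a⟩) = c} ∈ D i := by
    intro x i
    by_cases h : σ < #(A i)
    · obtain ⟨c, hc⟩ := (hD i).pick (C := C) (hC ▸ h) fun a => g x (e ⟨i, a⟩)
      exact ⟨c, fun _ => hc⟩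
    · exact ⟨hC0.some, fun h' => absurd h' h⟩
  choose col hcol using hcol
  obtain ⟨h₀, hh₀⟩ := infinite_pigeonhole_card (fun x => col x) (Order.succ lam) hS.ge hl'
    (by rw [hreg.cof_ord]; exact hIC)
  -- lower bounds
  let F : S → ∀ i, Set (A i) := fun x i =>
    {a | σ < #(A i) → g x (e ⟨i, a⟩) = col x i}
  have hF : ∀ x i, F x i ∈ D i := by
    intro x i
    by_cases h : σ < #(A i)
    · exact mem_of_superset (hcol x i h) fun a ha _ => ha
    · exact mem_of_superset univ_mem fun a _ h' => absurd h' h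
  obtain ⟨B, hB, hBF⟩ := hdir S hS F hF
  let S₁ : Set S := (fun x => col x) ⁻¹' {h₀}
  obtain ⟨G, hG⟩ := infinite_pigeonhole_card (β := S₁) (α := Set I)
    (fun x => {i | B i ⊆ F x i}) (Order.succ lam) hh₀ hl' (by rw [hreg.cof_ord]; exact hSI)
  let S₂ : Set S₁ := (fun x : S₁ => {i | B i ⊆ F x i}) ⁻¹' {G}
  have hS₂ : S₂.Nonempty := by
    rw [← nonempty_coe_sort, ← mk_ne_zero_iff]
    exact (aleph0_pos.trans_le (hl'.trans hG)).ne'
  have hGF : G ∈ 𝓕 := by
    obtain ⟨x, hx⟩ := hS₂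
    have h1 : {i | B i ⊆ F x i} = G := hx
    rw [← h1]
    exact hBF x
  let T : Set I := {i | i ∈ G ∧ σ < #(A i)}
  have hT : ∀ᶠ i in 𝓕, i ∈ T := Filter.Eventually.and hGF (hlim σ hσ)
  let X : Set S := Subtype.val '' S₂
  let Y : Set L := e '' {z | z.1 ∈ T ∧ z.2 ∈ B z.1}
  refine ⟨X, Y, fun l => h₀ (e.symm l).1, ?_, ?_, ?_⟩
  · refine le_antisymm (hS ▸ mk_set_le _) ?_
    rw [mk_image_eq Subtype.val_injective]
    exact hG
  · refine le_antisymm (hL ▸ mk_set_le _) (le_of_forall_lt fun ν hν => ?_)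
    obtain ⟨i, hi, hiT⟩ := ((hlim ν hν).and hT).exists
    refine hi.trans_le ?_
    rw [← (hD i).uniform (hB i)]
    refine mk_le_of_injective (f := fun a : B i => ⟨e ⟨i, a⟩, ⟨i, a⟩, ⟨hiT, a.2⟩, rfl⟩) ?_
    intro a b hab
    have h1 : e ⟨i, a⟩ = e ⟨i, b⟩ := congrArg Subtype.val hab
    have h2 := e.injective h1
    simpa [Subtype.ext_iff] using h2
  · rintro _ ⟨x, hx, rfl⟩ _ ⟨⟨i, a⟩, ⟨⟨hiG, hiσ⟩, ha⟩, rfl⟩
    have h1 : {i | B i ⊆ F x i} = G := hx
    have h2 : B i ⊆ F x i := by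
      have : i ∈ {i | B i ⊆ F x i} := by rw [h1]; exact hiG
      exact this
    have h3 : g x (e ⟨i, a⟩) = col x i := h2 ha hiσ
    have h4 : col x = h₀ := x.2
    simp only [Equiv.symm_apply_apply]
    rw [h3, h4]

end Pool.Agent.Helper53.SM
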