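import Pool.Agent.Helper53.SM.Meas

/-!
# Normal ultrafilters, and upper bounds in products of measurable cardinals
-/

set_option autoImplicit false

namespace Pool.Agent.Helper53.SM

open Cardinal Ordinal Set Filter

universe u v

/-- `D` is a normal ultrafilter on the cardinal `κ`: it contains the final segments of `κ` and the
diagonal intersections of its members. -/
structure IsNormal {κ : Cardinal.{u}} (D : Ultrafilter κ.ord.ToType) : Prop where
  tail : ∀ β, {ξ | β < ξ} ∈ D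
  diag : ∀ F : κ.ord.ToType → Set κ.ord.ToType, (∀ α, F α ∈ D) → {ξ | ∀ α < ξ, ξ ∈ F α} ∈ D

theorem exists_mk_Iio_eq {lam ν : Cardinal.{u}} (h : ν < lam) :
    ∃ i : lam.ord.ToType, #(Iio i) = ν := by
  have h1 : ν.ord < typeLT lam.ord.ToType := by
    rw [type_toType]
    exact ord_lt_ord.2 h
  refine ⟨enum (· < ·) ⟨ν.ord, h1⟩, ?_⟩
  have h2 := card_typein (r := ((· < ·) : lam.ord.ToType → lam.ord.ToType → Prop))
    (enum (· < ·) ⟨ν.ord, h1⟩)
  rw [typein_enum, card_ord] at h2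
  exact h2.symm

theorem mk_Iio_ord_lt {μ : Cardinal.{u}} (i : μ.ord.ToType) : #(Iio i) < μ := by
  simpa using mk_Iio_lt i

theorem mk_Iic_le {κ : Cardinal.{u}} (hκ : ℵ₀ ≤ κ) (a : (Order.succ κ).ord.ToType) :
    #(Iic a) ≤ κ := by
  have : Iic a = insert a (Iio a) := by
    ext x
    simp [le_iff_eq_or_lt]
  rw [this]
  refine (mk_insert_le).trans ?_
  exact add_le_of_le hκ (Order.lt_succ_iff.1 (mk_Iio_ord_lt a)) (one_le_aleph0.trans hκ)

variable {κ : Cardinal.{u}} {D : Ultrafilter κ.ord.ToType}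

theorem mk_K : #κ.ord.ToType = κ := by simp

theorem IsNormal.isMeasure (h : IsNormal D) : IsMeasure D := by
  constructor
  · intro J G hJ hG
    rw [mk_K] at hJ
    obtain ⟨β, hβ⟩ := exists_mk_Iio_eq hJ
    obtain ⟨s⟩ := Cardinal.eq.1 hβ
    classical
    let G' : κ.ord.ToType → Set κ.ord.ToType := fun α =>
      if h : α < β then G (s ⟨α, h⟩) else Set.univ
    have h1 : ∀ α, G' α ∈ D := by
      intro α
      by_cases hα : α < β
      · simpa [G', hα] using hG _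
      · simp only [G', hα, dite_false]
        exact univ_mem
    refine mem_of_superset (D.inter_mem (h.diag G' h1) (h.tail β)) ?_
    rintro ξ ⟨hξ1, hξ2⟩
    rw [mem_iInter]
    intro j
    have h2 := (s.symm j).2
    have h3 := hξ1 (s.symm j).1 ((s.symm j).2.trans hξ2)
    have h4 : ((s.symm j).1 : κ.ord.ToType) < β := h2
    have h5 : s ⟨(s.symm j).1, h4⟩ = j := s.apply_symm_apply j
    simp only [G'] at h3
    rw [dif_pos h4, h5] at h3
    exact h3
  · intro a ha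
    have h1 := D.inter_mem ha (h.tail a)
    obtain ⟨x, hx, hx'⟩ := D.nonempty_of_mem h1
    rw [mem_singleton_iff] at hx
    have hx'' : a < x := hx'
    exact lt_irrefl _ (hx ▸ hx'')

/-- pseudo-intersections of `κ` members of a normal ultrafilter -/
theorem IsNormal.pseudo (h : IsNormal D) {J : Type u} (hJ : #J ≤ κ) (G : J → Set κ.ord.ToType)
    (hG : ∀ j, G j ∈ D) : ∃ B ∈ D, ∀ j, ∃ β, ∀ ξ ∈ B, β < ξ → ξ ∈ G j := by
  rcases isEmpty_or_nonempty J with hJ' | hJ'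
  · exact ⟨Set.univ, univ_mem, fun j => (hJ'.false j).elim⟩
  obtain ⟨t, ht⟩ : ∃ t : κ.ord.ToType → J, Function.Surjective t := by
    have : #J ≤ #κ.ord.ToType := by rw [mk_K]; exact hJ
    obtain ⟨e⟩ := this
    exact ⟨Function.invFun e, Function.invFun_surjective e.injective⟩
  refine ⟨_, h.diag (fun α => G (t α)) fun α => hG _, fun j => ?_⟩
  obtain ⟨α, rfl⟩ := ht j
  exact ⟨α, fun ξ hξ hα => hξ α hα⟩

/-- Any `λ⁺` elements of the product of the `κ i` have a common upper bound modulo `𝓕`. -/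
def Bounds (lam : Cardinal.{u}) {I : Type u} (𝓕 : Filter I) (κ : I → Cardinal.{u}) : Prop :=
  ∀ S : Type u, #S = Order.succ lam → ∀ F : S → ∀ i, (κ i).ord.ToType,
    ∃ G : ∀ i, (κ i).ord.ToType, ∀ x, ∀ᶠ i in 𝓕, F x i ≤ G i

theorem directed_of_bounds {lam : Cardinal.{u}} {I : Type u} (𝓕 : Filter I)
    (κ : I → Cardinal.{u}) (D : ∀ i, Ultrafilter (κ i).ord.ToType) (hD : ∀ i, IsNormal (D i))
    (hp : ∀ i, 2 ^ κ i = Order.succ (κ i)) (h1 : Bounds lam 𝓕 κ)
    (h2 : Bounds lam 𝓕 fun i => Order.succ (κ i))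
    (S : Type u) (hS : #S = Order.succ lam) (F : S → ∀ i, Set (κ i).ord.ToType)
    (hF : ∀ x i, F x i ∈ D i) :
    ∃ B : ∀ i, Set (κ i).ord.ToType, (∀ i, B i ∈ D i) ∧ ∀ x, ∀ᶠ i in 𝓕, B i ⊆ F x i := by
  classical
  have hinf : ∀ i, ℵ₀ ≤ κ i := fun i => by
    have := (hD i).isMeasure.infinite
    rwa [mk_K] at this
  have hE : ∀ i, ∃ E : (Order.succ (κ i)).ord.ToType → {B : Set (κ i).ord.ToType // B ∈ D i},
      Function.Surjective E := by
    intro i
    have : Nonempty {B : Set (κ i).ord.ToType // B ∈ D i} := ⟨⟨Set.univ, univ_mem⟩⟩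
    have : #{B : Set (κ i).ord.ToType // B ∈ D i} ≤ #(Order.succ (κ i)).ord.ToType := by
      rw [mk_K, ← hp i]
      refine (mk_subtype_le _).trans ?_
      rw [mk_set, mk_K]
    obtain ⟨e⟩ := this
    exact ⟨Function.invFun e, Function.invFun_surjective e.injective⟩
  choose E hE using hE
  have hb : ∀ i (β : (Order.succ (κ i)).ord.ToType), ∃ b ∈ D i, ∀ α ≤ β, ∃ δ : (κ i).ord.ToType,
      ∀ ξ ∈ b, δ < ξ → ξ ∈ (E i α).1 := by
    intro i β
    obtain ⟨b, hb, hb'⟩ := (hD i).pseudo (J := Iic β) (mk_Iic_le (hinf i) β)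
      (fun α => (E i α.1).1) fun α => (E i α.1).2
    exact ⟨b, hb, fun α hα => hb' ⟨α, hα⟩⟩
  choose b hb hb' using hb
  have ha : ∀ (x : S) (i : I), ∃ α, (E i α).1 = F x i := fun x i => by
    obtain ⟨α, hα⟩ := hE i ⟨F x i, hF x i⟩
    exact ⟨α, congrArg Subtype.val hα⟩
  choose a ha using ha
  obtain ⟨G, hG⟩ := h2 S hS a
  have hd : ∀ (x : S) (i : I), ∃ δ : (κ i).ord.ToType, a x i ≤ G i →
      ∀ ξ ∈ b i (G i), δ < ξ → ξ ∈ F x i := by
    intro x i
    have hne : Nonempty (κ i).ord.ToType := by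
      rw [← mk_ne_zero_iff, mk_K]; exact (aleph0_pos.trans_le (hinf i)).ne'
    by_cases h : a x i ≤ G i
    · obtain ⟨δ, hδ⟩ := hb' i (G i) (a x i) h
      exact ⟨δ, fun _ ξ hξ h' => ha x i ▸ hδ ξ hξ h'⟩
    · exact ⟨hne.some, fun h' => absurd h' h⟩
  choose d hd using hd
  obtain ⟨H, hH⟩ := h1 S hS d
  refine ⟨fun i => b i (G i) ∩ {ξ | H i < ξ}, fun i => (D i).inter_mem (hb i _) ((hD i).tail _),
    fun x => ?_⟩
  filter_upwards [hG x, hH x] with i hi1 hi2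
  rintro ξ ⟨hξ1, hξ2⟩
  exact hd x i hi1 ξ hξ1 (hi2.trans_lt hξ2)

theorem Arrow.mono {κ η θ ι ι' : Cardinal.{u}} (h : Arrow κ η θ ι) (hι : ι' ≤ ι) :
    Arrow κ η θ ι' := by
  intro S hS f hf h1 h2
  obtain ⟨H, hH, hfree⟩ := h S hS f hf h1 h2
  obtain ⟨T, hT, hTc⟩ := Cardinal.le_mk_iff_exists_subset.1 (hH ▸ hι : ι' ≤ #H)
  exact ⟨T, hTc, fun x hx y hy => hfree x (hT hx) y (hT hy)⟩

theorem cof_lt_of_limit {lam : Cardinal.{u}} {I : Type u} (𝓕 : Filter I) [𝓕.NeBot]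
    (κ : I → Cardinal.{u}) (hI : #I < lam) (hκ : ∀ i, κ i < lam)
    (hlim : ∀ ν < lam, ∀ᶠ i in 𝓕, ν < κ i) : lam.ord.cof < lam := by
  refine lt_of_le_of_lt (not_lt.1 fun h => ?_) hI
  have h1 : iSup κ < lam := iSup_lt_of_lt_cof_ord h hκ
  obtain ⟨i, hi⟩ := (hlim _ h1).exists
  exact absurd hi (not_lt.2 (le_ciSup Cardinal.bddAbove_of_small i))

end Pool.Agent.Helper53.SM
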